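import Mathlib

set_option autoImplicit false

/-!
Second-moment potential function for a Maker-Breaker game with unit bias.
-/

namespace Pool.Agent.Lib.MP_88b929_co

open Finset Function

variable {E : Type*} [DecidableEq E] {ι : Type*} [Fintype ι]

/-- Termwise identity for a product over a finite set, under `1/2 → 1` at `e` and `1/2 → 0` at `g`. -/
lemma prod_identity (S : Finset E) (y : E → ℝ) {e g : E}
    (he : y e = 1 / 2) (hg : y g = 1 / 2) :
    ∏ x ∈ S, update (update y e 1) g 0 x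
      = (∏ x ∈ S, y x) + (∏ x ∈ S, update y e 1 x) - (∏ x ∈ S, update y g 1 x)
        - (if e ∈ S ∧ g ∈ S then ∏ x ∈ S, y x else 0) := by
  classical
  by_cases heS : e ∈ S
  · by_cases hgS : g ∈ S
    · have h1 : ∏ x ∈ S, update (update y e 1) g 0 x = 0 :=
        Finset.prod_eq_zero hgS (by simp)
      have h2 : ∏ x ∈ S, update y e 1 x = ∏ x ∈ S \ {e}, y x := by
        rw [Finset.prod_update_of_mem heS]; simp
      have h3 : ∏ x ∈ S, update y g 1 x = ∏ x ∈ S \ {g}, y x := by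
        rw [Finset.prod_update_of_mem hgS]; simp
      have h4 : ∏ x ∈ S, y x = y e * ∏ x ∈ S \ {e}, y x := by
        rw [← Finset.erase_eq, Finset.mul_prod_erase S y heS]
      have h5 : ∏ x ∈ S, y x = y g * ∏ x ∈ S \ {g}, y x := by
        rw [← Finset.erase_eq, Finset.mul_prod_erase S y hgS]
      rw [h1, h2, h3, if_pos ⟨heS, hgS⟩]
      rw [he] at h4
      rw [hg] at h5
      linarith
    · have h1 : ∏ x ∈ S, update (update y e 1) g 0 x = ∏ x ∈ S, update y e 1 x :=
        Finset.prod_update_of_notMem hgS _ _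
      have h3 : ∏ x ∈ S, update y g 1 x = ∏ x ∈ S, y x :=
        Finset.prod_update_of_notMem hgS _ _
      rw [h1, h3, if_neg (fun h => hgS h.2)]
      ring
  · by_cases hgS : g ∈ S
    · have h1 : ∏ x ∈ S, update (update y e 1) g 0 x = 0 :=
        Finset.prod_eq_zero hgS (by simp)
      have h2 : ∏ x ∈ S, update y e 1 x = ∏ x ∈ S, y x :=
        Finset.prod_update_of_notMem heS _ _
      have h3 : ∏ x ∈ S, update y g 1 x = ∏ x ∈ S \ {g}, y x := by
        rw [Finset.prod_update_of_mem hgS]; simp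
      have h5 : ∏ x ∈ S, y x = y g * ∏ x ∈ S \ {g}, y x := by
        rw [← Finset.erase_eq, Finset.mul_prod_erase S y hgS]
      rw [h1, h2, h3, if_neg (fun h => heS h.1)]
      rw [hg] at h5
      linarith
    · have h1 : ∏ x ∈ S, update (update y e 1) g 0 x = ∏ x ∈ S, update y e 1 x :=
        Finset.prod_update_of_notMem hgS _ _
      have h3 : ∏ x ∈ S, update y g 1 x = ∏ x ∈ S, y x :=
        Finset.prod_update_of_notMem hgS _ _
      rw [h1, h3, if_neg (fun h => hgS h.2)]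
      ring

/-- Pairs of indices whose sets share at least two elements. -/
noncomputable def pairs (A : ι → Finset E) : Finset (ι × ι) :=
  Finset.univ.filter (fun p => 2 ≤ (A p.1 ∩ A p.2).card)

/-- The potential `Φ - lam * Ψ`. -/
noncomputable def pot (A : ι → Finset E) (lam : ℝ) (y : E → ℝ) : ℝ :=
  (∑ i, ∏ x ∈ A i, y x) - lam * ∑ p ∈ pairs A, ∏ x ∈ A p.1 ∪ A p.2, y x

lemma pot_identity (A : ι → Finset E) (lam : ℝ) (y : E → ℝ) {e g : E}
    (he : y e = 1 / 2) (hg : y g = 1 / 2) :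
    pot A lam (update (update y e 1) g 0)
      = pot A lam y + (pot A lam (update y e 1) - pot A lam (update y g 1))
        - ((∑ i, if e ∈ A i ∧ g ∈ A i then ∏ x ∈ A i, y x else 0)
            - lam * ∑ p ∈ pairs A, if e ∈ A p.1 ∪ A p.2 ∧ g ∈ A p.1 ∪ A p.2 then
                ∏ x ∈ A p.1 ∪ A p.2, y x else 0) := by
  have h1 : (∑ i, ∏ x ∈ A i, update (update y e 1) g 0 x)
      = (∑ i, ∏ x ∈ A i, y x) + (∑ i, ∏ x ∈ A i, update y e 1 x)
        - (∑ i, ∏ x ∈ A i, update y g 1 x)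
        - (∑ i, if e ∈ A i ∧ g ∈ A i then ∏ x ∈ A i, y x else 0) := by
    rw [← Finset.sum_add_distrib, ← Finset.sum_sub_distrib, ← Finset.sum_sub_distrib]
    exact Finset.sum_congr rfl (fun i _ => prod_identity (A i) y he hg)
  have h2 : (∑ p ∈ pairs A, ∏ x ∈ A p.1 ∪ A p.2, update (update y e 1) g 0 x)
      = (∑ p ∈ pairs A, ∏ x ∈ A p.1 ∪ A p.2, y x)
        + (∑ p ∈ pairs A, ∏ x ∈ A p.1 ∪ A p.2, update y e 1 x)
        - (∑ p ∈ pairs A, ∏ x ∈ A p.1 ∪ A p.2, update y g 1 x)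
        - (∑ p ∈ pairs A, if e ∈ A p.1 ∪ A p.2 ∧ g ∈ A p.1 ∪ A p.2 then
                ∏ x ∈ A p.1 ∪ A p.2, y x else 0) := by
    rw [← Finset.sum_add_distrib, ← Finset.sum_sub_distrib, ← Finset.sum_sub_distrib]
    exact Finset.sum_congr rfl (fun p _ => prod_identity (A p.1 ∪ A p.2) y he hg)
  unfold pot
  rw [h1, h2]
  ring

lemma cross_bound (A : ι → Finset E) (y : E → ℝ) (hy0 : ∀ x, 0 ≤ y x) (hy1 : ∀ x, y x ≤ 1)
    {e g : E} (heg : e ≠ g) :
    (∑ i, if e ∈ A i ∧ g ∈ A i then ∏ x ∈ A i, y x else 0) ^ 2 ≤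
      ∑ p ∈ pairs A, if e ∈ A p.1 ∪ A p.2 ∧ g ∈ A p.1 ∪ A p.2 then
                ∏ x ∈ A p.1 ∪ A p.2, y x else 0 := by
  classical
  rw [sq, Finset.sum_mul_sum, ← Finset.sum_product']
  rw [Finset.univ_product_univ]
  have hsub : pairs A ⊆ (Finset.univ : Finset (ι × ι)) := Finset.subset_univ _
  rw [← Finset.sum_subset hsub (f := fun p : ι × ι =>
    (if e ∈ A p.1 ∧ g ∈ A p.1 then ∏ x ∈ A p.1, y x else 0) *
      (if e ∈ A p.2 ∧ g ∈ A p.2 then ∏ x ∈ A p.2, y x else 0))]
  · refine Finset.sum_le_sum (fun p _ => ?_)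
    by_cases h1 : e ∈ A p.1 ∧ g ∈ A p.1
    · by_cases h2 : e ∈ A p.2 ∧ g ∈ A p.2
      · rw [if_pos h1, if_pos h2, if_pos ⟨Finset.mem_union_left _ h1.1,
          Finset.mem_union_left _ h1.2⟩]
        rw [← Finset.prod_union_inter]
        refine mul_le_of_le_one_right (Finset.prod_nonneg (fun x _ => hy0 x)) ?_
        exact Finset.prod_le_one (fun x _ => hy0 x) (fun x _ => hy1 x)
      · rw [if_neg h2, mul_zero]
        split_ifs
        · exact Finset.prod_nonneg (fun x _ => hy0 x)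
        · exact le_rfl
    · rw [if_neg h1, zero_mul]
      split_ifs
      · exact Finset.prod_nonneg (fun x _ => hy0 x)
      · exact le_rfl
  · intro p _ hp
    by_cases h1 : e ∈ A p.1 ∧ g ∈ A p.1
    · by_cases h2 : e ∈ A p.2 ∧ g ∈ A p.2
      · exfalso
        apply hp
        rw [pairs, Finset.mem_filter]
        refine ⟨Finset.mem_univ _, ?_⟩
        have : ({e, g} : Finset E) ⊆ A p.1 ∩ A p.2 := by
          intro x hx
          rw [Finset.mem_insert, Finset.mem_singleton] at hx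
          rcases hx with rfl | rfl
          · exact Finset.mem_inter.2 ⟨h1.1, h2.1⟩
          · exact Finset.mem_inter.2 ⟨h1.2, h2.2⟩
        calc 2 = ({e, g} : Finset E).card := (Finset.card_pair heg).symm
          _ ≤ _ := Finset.card_le_card this
      · rw [if_neg h2, mul_zero]
    · rw [if_neg h1, zero_mul]

/-- One round of the game costs at most `1 / (4 * lam)` when `e` maximises the potential. -/
lemma pot_step (A : ι → Finset E) {lam : ℝ} (hlam : 0 < lam) (y : E → ℝ)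
    (hy0 : ∀ x, 0 ≤ y x) (hy1 : ∀ x, y x ≤ 1) {e g : E} (heg : e ≠ g)
    (he : y e = 1 / 2) (hg : y g = 1 / 2)
    (hmax : pot A lam (update y g 1) ≤ pot A lam (update y e 1)) :
    pot A lam y - 1 / (4 * lam) ≤ pot A lam (update (update y e 1) g 0) := by
  rw [pot_identity A lam y he hg]
  have hc := cross_bound A y hy0 hy1 heg
  set w := ∑ i, if e ∈ A i ∧ g ∈ A i then ∏ x ∈ A i, y x else 0 with hw
  set ψ := ∑ p ∈ pairs A, if e ∈ A p.1 ∪ A p.2 ∧ g ∈ A p.1 ∪ A p.2 then
                ∏ x ∈ A p.1 ∪ A p.2, y x else 0 with hψ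
  have h1 : lam * w ^ 2 ≤ lam * ψ := mul_le_mul_of_nonneg_left hc hlam.le
  have h2 : w - lam * w ^ 2 ≤ 1 / (4 * lam) := by
    rw [le_div_iff₀ (by positivity)]
    nlinarith [sq_nonneg (2 * lam * w - 1)]
  linarith

end Pool.Agent.Lib.MP_88b929_co
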