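import Mathlib
import Pool.Agent.Lib.MP_88b929_co.Potential

set_option autoImplicit false

/-!
The red player's potential strategy inside a board `V`, with white edges dumped in `D`.
-/

namespace Pool.Agent.Lib.MP_88b929_co

open Finset Function

/-- The closure rule of winning positions (the hypothesis of the frozen statement). -/
def Closed (N q : ℕ)
    (S : Set (Set (Fin N × Fin N) × Set (Fin N × Fin N) × Set (Fin N × Fin N))) : Prop :=
  ∀ R W B : Set (Fin N × Fin N),
        ((∃ e f : Fin N × Fin N, e.1 < e.2 ∧ f.1 < f.2 ∧ e ≠ f ∧ e ∉ R ∧ e ∉ W ∧ e ∉ B ∧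
            f ∉ R ∧ f ∉ W ∧ f ∉ B ∧
            ((∃ K : Finset (Fin N), K.card = q ∧
                ∀ x ∈ K, ∀ y ∈ K, x < y → (x, y) ∈ insert e R) ∨
             (∃ K : Finset (Fin N), K.card = q ∧
                ∀ x ∈ K, ∀ y ∈ K, x < y → (x, y) ∈ insert f W) ∨
             ((∃ g : Fin N × Fin N, g.1 < g.2 ∧ g ∉ R ∧ g ∉ W ∧ g ∉ B ∧ g ≠ e ∧ g ≠ f) ∧
              ∀ g : Fin N × Fin N, g.1 < g.2 → g ∉ R → g ∉ W → g ∉ B → g ≠ e → g ≠ f →
                (insert e R, insert f W, insert g B) ∈ S))) ∨
         (∃ e : Fin N × Fin N, e.1 < e.2 ∧ e ∉ R ∧ e ∉ W ∧ e ∉ B ∧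
            (∀ f : Fin N × Fin N, f.1 < f.2 → f ∉ R → f ∉ W → f ∉ B → f = e) ∧
            ((∃ K : Finset (Fin N), K.card = q ∧
                ∀ x ∈ K, ∀ y ∈ K, x < y → (x, y) ∈ insert e R) ∨
             (∃ K : Finset (Fin N), K.card = q ∧
                ∀ x ∈ K, ∀ y ∈ K, x < y → (x, y) ∈ insert e W)))) →
        (R, W, B) ∈ S

open Classical in
/-- The valuation: `1/2` on the unclaimed part `U`, `1` on red, `0` elsewhere. -/
noncomputable def val {E : Type*} (U : Finset E) (R : Set E) (x : E) : ℝ :=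
  if x ∈ U then 1 / 2 else if x ∈ R then 1 else 0

lemma val_nonneg {E : Type*} (U : Finset E) (R : Set E) (x : E) : 0 ≤ val U R x := by
  unfold val; split_ifs <;> norm_num

lemma val_le_one {E : Type*} (U : Finset E) (R : Set E) (x : E) : val U R x ≤ 1 := by
  unfold val; split_ifs <;> norm_num

lemma val_update {E : Type*} [DecidableEq E] (U : Finset E) (R : Set E) {e g : E}
    (he : e ∈ U) (hg : g ∈ U) (heg : e ≠ g) (hgR : g ∉ R) :
    val ((U.erase e).erase g) (insert e R) = update (update (val U R) e 1) g 0 := by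
  funext x
  by_cases hxg : x = g
  · subst hxg
    simp [val, hgR, heg.symm]
  · by_cases hxe : x = e
    · subst hxe
      simp [val, heg]
    · have hiff : x ∈ (insert e R : Set E) ↔ x ∈ R := by
        rw [Set.mem_insert_iff]
        constructor
        · rintro (h | h)
          · exact absurd h hxe
          · exact h
        · exact Or.inr
      rw [Function.update_of_ne hxg, Function.update_of_ne hxe]
      have hU : x ∈ (U.erase e).erase g ↔ x ∈ U := by simp [hxg, hxe]
      unfold val
      by_cases hxU : x ∈ U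
      · rw [if_pos (hU.2 hxU), if_pos hxU]
      · rw [if_neg (fun h => hxU (hU.1 h)), if_neg hxU]
        by_cases hxR : x ∈ R
        · rw [if_pos (hiff.2 hxR), if_pos hxR]
        · rw [if_neg (fun h => hxR (hiff.1 h)), if_neg hxR]

theorem win_of_pot {N q : ℕ} {ι : Type*} [Fintype ι]
    (A : ι → Finset (Fin N × Fin N)) {lam : ℝ} (hlam : 0 < lam)
    (V D : Finset (Fin N × Fin N)) (hVD : Disjoint V D)
    (hV : ∀ e ∈ V, e.1 < e.2) (hD : ∀ e ∈ D, e.1 < e.2)
    (hK : ∀ i, ∃ K : Finset (Fin N), K.card = q ∧ ∀ x ∈ K, ∀ y ∈ K, x < y → (x, y) ∈ A i)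
    (S : Set (Set (Fin N × Fin N) × Set (Fin N × Fin N) × Set (Fin N × Fin N)))
    (hS : Closed N q S) :
    ∀ (k : ℕ) (R W B : Set (Fin N × Fin N)) (U D' : Finset (Fin N × Fin N)),
      U ⊆ V → U.card = 2 * k → (∀ u ∈ U, u ∉ R ∧ u ∉ W ∧ u ∉ B) →
      D' ⊆ D → 2 * k + 2 ≤ D'.card → (∀ u ∈ D', u ∉ R ∧ u ∉ W ∧ u ∉ B) →
      (k : ℝ) * (1 / (4 * lam)) < pot A lam (val U R) →
      (R, W, B) ∈ S := by
  intro k
  induction k with
  | zero =>
    intro R W B U D' hUV hUc hU hDD hDc hD' hpot
    have hU0 : U = ∅ := by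
      rw [← Finset.card_eq_zero]; simpa using hUc
    subst hU0
    have hpos : 0 < ∑ i, ∏ x ∈ A i, val (∅ : Finset (Fin N × Fin N)) R x := by
      have h1 : 0 ≤ lam * ∑ p ∈ pairs A, ∏ x ∈ A p.1 ∪ A p.2,
          val (∅ : Finset (Fin N × Fin N)) R x :=
        mul_nonneg hlam.le (Finset.sum_nonneg (fun p _ =>
          Finset.prod_nonneg (fun x _ => val_nonneg _ _ x)))
      unfold pot at hpot
      simp only [Nat.cast_zero, zero_mul] at hpot
      linarith
    obtain ⟨i, _, hi⟩ : ∃ i ∈ (Finset.univ : Finset ι),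
        0 < ∏ x ∈ A i, val (∅ : Finset (Fin N × Fin N)) R x := by
      by_contra hcon
      push Not at hcon
      exact absurd (Finset.sum_nonpos hcon) (not_le.2 hpos)
    have hAi : ∀ x ∈ A i, x ∈ R := by
      intro x hx
      by_contra hxR
      have : val (∅ : Finset (Fin N × Fin N)) R x = 0 := by simp [val, hxR]
      rw [Finset.prod_eq_zero hx this] at hi
      exact lt_irrefl _ hi
    obtain ⟨K, hKc, hKA⟩ := hK i
    obtain ⟨d1, hd1, d2, hd2, hd12⟩ : ∃ d1 ∈ D', ∃ d2 ∈ D', d1 ≠ d2 :=
      Finset.one_lt_card.1 (by omega)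
    apply hS R W B
    left
    refine ⟨d1, d2, hD _ (hDD hd1), hD _ (hDD hd2), hd12, (hD' d1 hd1).1, (hD' d1 hd1).2.1,
      (hD' d1 hd1).2.2, (hD' d2 hd2).1, (hD' d2 hd2).2.1, (hD' d2 hd2).2.2, Or.inl ?_⟩
    exact ⟨K, hKc, fun x hx y hy hxy => Set.mem_insert_of_mem _ (hAi _ (hKA x hx y hy hxy))⟩
  | succ k ih =>
    intro R W B U D' hUV hUc hU hDD hDc hD' hpot
    have hUne : U.Nonempty := by
      rw [← Finset.card_pos]; omega
    obtain ⟨e, heU, hemax⟩ := Finset.exists_max_image U
      (fun x => pot A lam (update (val U R) x 1)) hUne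
    have hDne : D'.Nonempty := by
      rw [← Finset.card_pos]; omega
    obtain ⟨f, hfD⟩ := hDne
    have hefne : e ≠ f := by
      rintro rfl
      exact (Finset.disjoint_left.1 hVD (hUV heU)) (hDD hfD)
    apply hS R W B
    left
    refine ⟨e, f, hV _ (hUV heU), hD _ (hDD hfD), hefne, (hU e heU).1, (hU e heU).2.1,
      (hU e heU).2.2, (hD' f hfD).1, (hD' f hfD).2.1, (hD' f hfD).2.2, Or.inr (Or.inr ⟨?_, ?_⟩)⟩
    · -- there is a further unclaimed edge
      have : (D'.erase f).Nonempty := by
        rw [← Finset.card_pos, Finset.card_erase_of_mem hfD]; omega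
      obtain ⟨g, hg⟩ := this
      have hgD := Finset.mem_of_mem_erase hg
      refine ⟨g, hD _ (hDD hgD), (hD' g hgD).1, (hD' g hgD).2.1, (hD' g hgD).2.2, ?_,
        Finset.ne_of_mem_erase hg⟩
      rintro rfl
      exact (Finset.disjoint_left.1 hVD (hUV heU)) (hDD hgD)
    · intro g _ hgR hgW hgB hge hgf
      -- the (possibly fictitious) reply of Breaker inside the board
      obtain ⟨g0, hg0U, hg0e, hg0⟩ : ∃ g0 ∈ U, g0 ≠ e ∧ (g ∈ U → g0 = g) := by
        by_cases hgU : g ∈ U
        · exact ⟨g, hgU, hge, fun _ => rfl⟩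
        · have : (U.erase e).Nonempty := by
            rw [← Finset.card_pos, Finset.card_erase_of_mem heU]; omega
          obtain ⟨g0, hg0⟩ := this
          exact ⟨g0, Finset.mem_of_mem_erase hg0, Finset.ne_of_mem_erase hg0,
            fun h => absurd h hgU⟩
      apply ih (insert e R) (insert f W) (insert g B) ((U.erase e).erase g0)
        ((D'.erase f).erase g)
      · exact ((Finset.erase_subset _ _).trans (Finset.erase_subset _ _)).trans hUV
      · rw [Finset.card_erase_of_mem (Finset.mem_erase.2 ⟨hg0e, hg0U⟩),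
          Finset.card_erase_of_mem heU]
        omega
      · intro u hu
        have hu0 : u ≠ g0 := Finset.ne_of_mem_erase hu
        have hu1 := Finset.mem_of_mem_erase hu
        have hue : u ≠ e := Finset.ne_of_mem_erase hu1
        have huU := Finset.mem_of_mem_erase hu1
        obtain ⟨a, b, c⟩ := hU u huU
        refine ⟨?_, ?_, ?_⟩
        · rw [Set.mem_insert_iff]; push Not; exact ⟨hue, a⟩
        · rw [Set.mem_insert_iff]; push Not
          refine ⟨?_, b⟩
          rintro rfl
          exact (Finset.disjoint_left.1 hVD (hUV huU)) (hDD hfD)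
        · rw [Set.mem_insert_iff]; push Not
          refine ⟨?_, c⟩
          rintro rfl
          exact hu0 (hg0 huU).symm
      · exact ((Finset.erase_subset _ _).trans (Finset.erase_subset _ _)).trans hDD
      · have h1 : (D'.erase f).card = D'.card - 1 := Finset.card_erase_of_mem hfD
        have h2 : (D'.erase f).card - 1 ≤ ((D'.erase f).erase g).card :=
          Finset.pred_card_le_card_erase
        omega
      · intro u hu
        have hu0 : u ≠ g := Finset.ne_of_mem_erase hu
        have hu1 := Finset.mem_of_mem_erase hu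
        have huf : u ≠ f := Finset.ne_of_mem_erase hu1
        have huD := Finset.mem_of_mem_erase hu1
        obtain ⟨a, b, c⟩ := hD' u huD
        refine ⟨?_, ?_, ?_⟩
        · rw [Set.mem_insert_iff]; push Not
          refine ⟨?_, a⟩
          rintro rfl
          exact (Finset.disjoint_left.1 hVD (hUV heU)) (hDD huD)
        · rw [Set.mem_insert_iff]; push Not; exact ⟨huf, b⟩
        · rw [Set.mem_insert_iff]; push Not; exact ⟨hu0, c⟩
      · rw [val_update U R heU hg0U (Ne.symm hg0e) (hU g0 hg0U).1]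
        have hstep := pot_step A hlam (val U R) (val_nonneg U R) (val_le_one U R)
          (Ne.symm hg0e) (by simp [val, heU]) (by simp [val, hg0U]) (hemax g0 hg0U)
        push_cast at hpot
        linarith

end Pool.Agent.Lib.MP_88b929_co
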