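import Mathlib
import Pool.Agent.Lib.MP_88b929_co.Game

set_option autoImplicit false

/-!
The board of transversal cliques and the computation of the initial potential.
-/

namespace Pool.Agent.Lib.MP_88b929_co

open Finset Function

/-- Number of increasing pairs in a finite set. -/
lemma card_lt_pairs {q : ℕ} (J : Finset (Fin q)) :
    ((J ×ˢ J).filter (fun p => p.1 < p.2)).card = J.card.choose 2 := by
  induction J using Finset.induction_on_max with
  | empty => simp
  | insert a s ha ih =>
    have has : a ∉ s := fun h => lt_irrefl _ (ha a h)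
    have hsplit : ((insert a s ×ˢ insert a s).filter (fun p => p.1 < p.2))
        = ((s ×ˢ s).filter (fun p => p.1 < p.2)) ∪ (s ×ˢ {a}) := by
      ext ⟨x, y⟩
      simp only [mem_filter, mem_product, mem_insert, mem_union, mem_singleton]
      constructor
      · rintro ⟨⟨hx, hy⟩, hxy⟩
        rcases hx with rfl | hx
        · rcases hy with rfl | hy
          · exact absurd hxy (lt_irrefl _)
          · exact absurd hxy (not_lt.2 (ha y hy).le)
        · rcases hy with rfl | hy
          · exact Or.inr ⟨hx, rfl⟩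
          · exact Or.inl ⟨⟨hx, hy⟩, hxy⟩
      · rintro (⟨⟨hx, hy⟩, hxy⟩ | ⟨hx, rfl⟩)
        · exact ⟨⟨Or.inr hx, Or.inr hy⟩, hxy⟩
        · exact ⟨⟨Or.inr hx, Or.inl rfl⟩, ha x hx⟩
    have hdisj : Disjoint ((s ×ˢ s).filter (fun p => p.1 < p.2)) (s ×ˢ {a}) := by
      rw [Finset.disjoint_left]
      rintro ⟨x, y⟩ h1 h2
      simp only [mem_filter, mem_product, mem_singleton] at h1 h2
      rw [h2.2] at h1
      exact has h1.1.2
    rw [hsplit, Finset.card_union_of_disjoint hdisj, ih, Finset.card_product,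
      Finset.card_singleton, mul_one, Finset.card_insert_of_notMem has]
    rw [Nat.choose_succ_succ' s.card 1, Nat.choose_one_right]
    ring

section board

variable {q M N : ℕ} (hN : q * M ≤ N)

/-- The vertex number `a` of part `i`. -/
def vtx (i : Fin q) (a : Fin M) : Fin N := Fin.castLE hN (finProdFinEquiv (i, a))

lemma vtx_val (i : Fin q) (a : Fin M) : (vtx hN i a : ℕ) = a + M * i := rfl

lemma vtx_inj {i j : Fin q} {a b : Fin M} (h : vtx hN i a = vtx hN j b) : i = j ∧ a = b := by
  have h1 := Fin.castLE_injective hN h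
  have h2 := finProdFinEquiv.injective h1
  exact ⟨congrArg Prod.fst h2, congrArg Prod.snd h2⟩

lemma vtx_lt {i j : Fin q} (hij : i < j) (a b : Fin M) : vtx hN i a < vtx hN j b := by
  rw [Fin.lt_def, vtx_val, vtx_val]
  have h1 : (i : ℕ) + 1 ≤ j := hij
  have h2 : M * ((i : ℕ) + 1) ≤ M * j := Nat.mul_le_mul_left M h1
  have h3 := a.isLt
  rw [Nat.mul_add, Nat.mul_one] at h2
  omega

/-- Edge of the transversal clique of `a` between parts `p.1` and `p.2`. -/
def edge (a : Fin q → Fin M) (p : Fin q × Fin q) : Fin N × Fin N :=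
  (vtx hN p.1 (a p.1), vtx hN p.2 (a p.2))

lemma edge_inj (a b : Fin q → Fin M) {p r : Fin q × Fin q} (h : edge hN a p = edge hN b r) :
    p = r ∧ a p.1 = b r.1 ∧ a p.2 = b r.2 := by
  have h1 := vtx_inj hN (congrArg Prod.fst h)
  have h2 := vtx_inj hN (congrArg Prod.snd h)
  exact ⟨Prod.ext h1.1 h2.1, h1.2, h2.2⟩

/-- Index pairs. -/
def ltp (q : ℕ) : Finset (Fin q × Fin q) :=
  ((univ : Finset (Fin q)) ×ˢ (univ : Finset (Fin q))).filter (fun p => p.1 < p.2)

lemma card_ltp (q : ℕ) : (ltp q).card = q.choose 2 := by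
  rw [ltp, card_lt_pairs, Finset.card_univ, Fintype.card_fin]

/-- The edge set of the transversal clique. -/
def cl (a : Fin q → Fin M) : Finset (Fin N × Fin N) := (ltp q).image (edge hN a)

lemma card_cl (a : Fin q → Fin M) : (cl hN a).card = q.choose 2 := by
  rw [cl, Finset.card_image_of_injective _ (fun p r h => (edge_inj hN a a h).1), card_ltp]

/-- The board: all edges between different parts. -/
def board : Finset (Fin N × Fin N) :=
  (ltp q ×ˢ (univ : Finset (Fin M × Fin M))).image
    (fun z => (vtx hN z.1.1 z.2.1, vtx hN z.1.2 z.2.2))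

lemma card_board : (board hN).card = q.choose 2 * (M * M) := by
  rw [board, Finset.card_image_of_injective, Finset.card_product, card_ltp, Finset.card_univ,
    Fintype.card_prod, Fintype.card_fin]
  rintro ⟨⟨i, j⟩, ⟨a, b⟩⟩ ⟨⟨i', j'⟩, ⟨a', b'⟩⟩ h
  have h1 := vtx_inj hN (congrArg Prod.fst h)
  have h2 := vtx_inj hN (congrArg Prod.snd h)
  dsimp only at h1 h2
  rw [h1.1, h1.2, h2.1, h2.2]

lemma cl_subset (a : Fin q → Fin M) : cl hN a ⊆ board hN := by
  intro e he
  rw [cl, Finset.mem_image] at he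
  obtain ⟨p, hp, rfl⟩ := he
  rw [board, Finset.mem_image]
  exact ⟨(p, (a p.1, a p.2)), Finset.mem_product.2 ⟨hp, Finset.mem_univ _⟩, rfl⟩

lemma board_lt {e : Fin N × Fin N} (he : e ∈ board hN) : e.1 < e.2 := by
  rw [board, Finset.mem_image] at he
  obtain ⟨z, hz, rfl⟩ := he
  have hz1 := (Finset.mem_product.1 hz).1
  rw [ltp, Finset.mem_filter] at hz1
  exact vtx_lt hN hz1.2 _ _

lemma board_small {e : Fin N × Fin N} (he : e ∈ board hN) : (e.2 : ℕ) < q * M := by
  rw [board, Finset.mem_image] at he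
  obtain ⟨z, hz, rfl⟩ := he
  exact (finProdFinEquiv (z.1.2, z.2.2)).isLt

/-- The dump: edges from `[0, q*M)` to its complement. -/
def dump (q M N : ℕ) : Finset (Fin N × Fin N) :=
  (univ.filter (fun x : Fin N => (x : ℕ) < q * M)) ×ˢ
    (univ.filter (fun x : Fin N => q * M ≤ (x : ℕ)))

lemma dump_lt {e : Fin N × Fin N} (he : e ∈ dump q M N) : e.1 < e.2 := by
  rw [dump, Finset.mem_product, Finset.mem_filter, Finset.mem_filter] at he
  exact Fin.lt_def.2 (lt_of_lt_of_le he.1.2 he.2.2)

lemma disj_board_dump : Disjoint (board hN) (dump q M N) := by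
  rw [Finset.disjoint_left]
  intro e he hd
  rw [dump, Finset.mem_product, Finset.mem_filter, Finset.mem_filter] at hd
  exact absurd (board_small hN he) (not_lt.2 hd.2.2)

lemma card_dump (q M : ℕ) : (dump q M (2 * (q * M))).card = (q * M) * (q * M) := by
  rw [dump, Finset.card_product]
  have h1 : (univ.filter (fun x : Fin (2 * (q * M)) => (x : ℕ) < q * M)).card = q * M := by
    rw [Fin.card_filter_val_lt]
    omega
  have h2 : (univ.filter (fun x : Fin (2 * (q * M)) => q * M ≤ (x : ℕ))).card = q * M := by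
    have h3 := Finset.card_filter_add_card_filter_not (s := (univ : Finset (Fin (2 * (q * M)))))
      (fun x : Fin (2 * (q * M)) => (x : ℕ) < q * M)
    rw [h1, Finset.card_univ, Fintype.card_fin] at h3
    have h4 : (univ.filter (fun x : Fin (2 * (q * M)) => ¬ (x : ℕ) < q * M))
        = (univ.filter (fun x : Fin (2 * (q * M)) => q * M ≤ (x : ℕ))) :=
      Finset.filter_congr (fun x _ => not_lt)
    rw [h4] at h3
    omega
  rw [h1, h2]

lemma exists_clique (a : Fin q → Fin M) :
    ∃ K : Finset (Fin N), K.card = q ∧ ∀ x ∈ K, ∀ y ∈ K, x < y → (x, y) ∈ cl hN a := by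
  refine ⟨(univ : Finset (Fin q)).image (fun i => vtx hN i (a i)), ?_, ?_⟩
  · rw [Finset.card_image_of_injective _ (fun i j h => (vtx_inj hN h).1), Finset.card_univ,
      Fintype.card_fin]
  · intro x hx y hy hxy
    rw [Finset.mem_image] at hx hy
    obtain ⟨i, _, rfl⟩ := hx
    obtain ⟨j, _, rfl⟩ := hy
    have hij : i < j := by
      rcases lt_trichotomy i j with h | h | h
      · exact h
      · subst h; exact absurd hxy (lt_irrefl _)
      · exact absurd (vtx_lt hN h (a j) (a i)) (not_lt.2 hxy.le)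
    rw [cl, Finset.mem_image]
    refine ⟨(i, j), ?_, rfl⟩
    rw [ltp, Finset.mem_filter]
    exact ⟨Finset.mem_product.2 ⟨Finset.mem_univ _, Finset.mem_univ _⟩, hij⟩

/-- Agreement set. -/
def agr (a b : Fin q → Fin M) : Finset (Fin q) := univ.filter (fun i => a i = b i)

lemma card_inter_le (a b : Fin q → Fin M) :
    (cl hN a ∩ cl hN b).card ≤ (agr a b).card.choose 2 := by
  rw [← card_lt_pairs]
  refine le_trans (Finset.card_le_card (t := (((agr a b) ×ˢ (agr a b)).filter
    (fun p => p.1 < p.2)).image (edge hN a)) ?_) Finset.card_image_le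
  intro e he
  rw [Finset.mem_inter, cl, cl, Finset.mem_image, Finset.mem_image] at he
  obtain ⟨⟨p, hp, hpe⟩, ⟨r, hr, hre⟩⟩ := he
  rw [Finset.mem_image]
  refine ⟨p, ?_, hpe⟩
  obtain ⟨h1, h2, h3⟩ := edge_inj hN a b (hpe.trans hre.symm)
  subst h1
  rw [ltp, Finset.mem_filter] at hp
  rw [Finset.mem_filter, Finset.mem_product, agr, Finset.mem_filter, Finset.mem_filter]
  exact ⟨⟨⟨Finset.mem_univ _, h2⟩, ⟨Finset.mem_univ _, h3⟩⟩, hp.2⟩

lemma card_agree (a : Fin q → Fin M) (J : Finset (Fin q)) :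
    (univ.filter (fun b : Fin q → Fin M => ∀ i ∈ J, a i = b i)).card = M ^ (q - J.card) := by
  have h1 : (univ.filter (fun b : Fin q → Fin M => ∀ i ∈ J, a i = b i))
      = Fintype.piFinset (fun i => if i ∈ J then {a i} else (univ : Finset (Fin M))) := by
    ext b
    simp only [Finset.mem_filter, Finset.mem_univ, true_and, Fintype.mem_piFinset]
    constructor
    · intro h i
      by_cases hi : i ∈ J
      · rw [if_pos hi, Finset.mem_singleton]; exact (h i hi).symm
      · rw [if_neg hi]; exact Finset.mem_univ _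
    · intro h i hi
      have := h i
      rw [if_pos hi, Finset.mem_singleton] at this
      exact this.symm
  rw [h1, Fintype.card_piFinset]
  have h2 : ∀ i : Fin q, (if i ∈ J then {a i} else (univ : Finset (Fin M))).card
      = if i ∈ J then 1 else M := by
    intro i
    by_cases hi : i ∈ J
    · rw [if_pos hi, if_pos hi, Finset.card_singleton]
    · rw [if_neg hi, if_neg hi, Finset.card_univ, Fintype.card_fin]
  rw [Finset.prod_congr rfl (fun i _ => h2 i), Finset.prod_ite, Finset.prod_const_one, one_mul,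
    Finset.prod_const]
  congr 1
  have h3 : (univ.filter (fun i : Fin q => i ∉ J)) = Jᶜ := by
    ext i; simp
  rw [h3, Finset.card_compl, Fintype.card_fin]

/-- The weight of an agreement set of given size. -/
noncomputable def wt (M q m : ℕ) : ℝ := if 3 ≤ m then 2 ^ (m.choose 2) * (M : ℝ) ^ (q - m) else 0

lemma wt_nonneg (M q m : ℕ) : 0 ≤ wt M q m := by
  unfold wt; split_ifs <;> positivity

/-- The initial value of `Φ`. -/
lemma phi_init :
    (∑ a : Fin q → Fin M, ∏ x ∈ cl hN a, val (board hN) (∅ : Set (Fin N × Fin N)) x)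
      = (M : ℝ) ^ q * (1 / 2) ^ (q.choose 2) := by
  have h : ∀ a : Fin q → Fin M,
      ∏ x ∈ cl hN a, val (board hN) (∅ : Set (Fin N × Fin N)) x = (1 / 2) ^ (q.choose 2) := by
    intro a
    rw [Finset.prod_congr rfl (g := fun _ => (1 / 2 : ℝ))
      (fun x hx => by simp only [val, if_pos (cl_subset hN a hx)]), Finset.prod_const, card_cl]
  rw [Finset.sum_congr rfl (fun a _ => h a), Finset.sum_const, Finset.card_univ,
    Fintype.card_fun, Fintype.card_fin, Fintype.card_fin, nsmul_eq_mul]
  push_cast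
  ring

lemma pair_weight (a b : Fin q → Fin M) :
    ∏ x ∈ cl hN a ∪ cl hN b, val (board hN) (∅ : Set (Fin N × Fin N)) x
      ≤ (1 / 4) ^ (q.choose 2) * 2 ^ ((agr a b).card.choose 2) := by
  have h1 : ∏ x ∈ cl hN a ∪ cl hN b, val (board hN) (∅ : Set (Fin N × Fin N)) x
      = (1 / 2) ^ (cl hN a ∪ cl hN b).card := by
    rw [Finset.prod_congr rfl (g := fun _ => (1 / 2 : ℝ)) (fun x hx => by
      have : x ∈ board hN := by
        rcases Finset.mem_union.1 hx with h | h
        · exact cl_subset hN a h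
        · exact cl_subset hN b h
      simp only [val, if_pos this]), Finset.prod_const]
  rw [h1]
  have h2 : (cl hN a ∪ cl hN b).card + (cl hN a ∩ cl hN b).card = q.choose 2 + q.choose 2 := by
    rw [Finset.card_union_add_card_inter, card_cl, card_cl]
  have h3 := card_inter_le hN a b
  have h4 : ((1 : ℝ) / 2) ^ (cl hN a ∪ cl hN b).card * (1 / 2) ^ (cl hN a ∩ cl hN b).card
      = (1 / 4) ^ (q.choose 2) := by
    rw [← pow_add, h2, pow_add, ← mul_pow]
    norm_num
  have h5 : ((1 : ℝ) / 2) ^ (cl hN a ∪ cl hN b).card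
      = (1 / 4) ^ (q.choose 2) * 2 ^ (cl hN a ∩ cl hN b).card := by
    rw [← h4, mul_assoc, ← mul_pow]
    norm_num
  rw [h5]
  exact mul_le_mul_of_nonneg_left (pow_le_pow_right₀ (by norm_num) h3) (by positivity)

/-- Upper bound for the initial value of `Ψ`. -/
lemma psi_init :
    (∑ p ∈ pairs (fun a : Fin q → Fin M => cl hN a),
        ∏ x ∈ cl hN p.1 ∪ cl hN p.2, val (board hN) (∅ : Set (Fin N × Fin N)) x)
      ≤ (M : ℝ) ^ q * (1 / 4) ^ (q.choose 2) *
        ∑ m ∈ range (q + 1), (q.choose m : ℝ) * wt M q m := by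
  classical
  -- the bound for each pair
  have hterm : ∀ p ∈ pairs (fun a : Fin q → Fin M => cl hN a),
      ∏ x ∈ cl hN p.1 ∪ cl hN p.2, val (board hN) (∅ : Set (Fin N × Fin N)) x
      ≤ ∑ J ∈ (univ : Finset (Fin q)).powerset, if (3 ≤ J.card ∧ ∀ i ∈ J, p.1 i = p.2 i) then
          (1 / 4 : ℝ) ^ (q.choose 2) * 2 ^ (J.card.choose 2) else 0 := by
    rintro ⟨a, b⟩ hp
    rw [pairs, Finset.mem_filter] at hp
    have hinter := card_inter_le hN a b
    have h3 : 3 ≤ (agr a b).card := by
      by_contra hcon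
      have h2 : (agr a b).card ≤ 2 := by omega
      have : (agr a b).card.choose 2 ≤ Nat.choose 2 2 := Nat.choose_le_choose 2 h2
      rw [Nat.choose_self] at this
      have := hp.2
      dsimp only at this
      omega
    refine le_trans (pair_weight hN a b) ?_
    have hmem : agr a b ∈ (univ : Finset (Fin q)).powerset :=
      Finset.mem_powerset.2 (Finset.subset_univ _)
    refine le_trans ?_ (Finset.single_le_sum (f := fun J : Finset (Fin q) =>
      if (3 ≤ J.card ∧ ∀ i ∈ J, a i = b i) then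
          (1 / 4 : ℝ) ^ (q.choose 2) * 2 ^ (J.card.choose 2) else 0) (fun J _ => ?_) hmem)
    · rw [if_pos ⟨h3, fun i hi => (Finset.mem_filter.1 hi).2⟩]
    · split_ifs <;> positivity
  refine le_trans (Finset.sum_le_sum hterm) ?_
  have hnn : ∀ p : (Fin q → Fin M) × (Fin q → Fin M), 0 ≤
      ∑ J ∈ (univ : Finset (Fin q)).powerset, if (3 ≤ J.card ∧ ∀ i ∈ J, p.1 i = p.2 i) then
          (1 / 4 : ℝ) ^ (q.choose 2) * 2 ^ (J.card.choose 2) else 0 := by
    intro p
    refine Finset.sum_nonneg (fun J _ => ?_)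
    split_ifs <;> positivity
  refine le_trans (Finset.sum_le_sum_of_subset_of_nonneg (Finset.subset_univ _)
    (fun p _ _ => hnn p)) ?_
  rw [← Finset.univ_product_univ, Finset.sum_product]
  have hinner : ∀ a : Fin q → Fin M, (∑ b : Fin q → Fin M,
      ∑ J ∈ (univ : Finset (Fin q)).powerset, if (3 ≤ J.card ∧ ∀ i ∈ J, a i = b i) then
          (1 / 4 : ℝ) ^ (q.choose 2) * 2 ^ (J.card.choose 2) else 0)
      = (1 / 4) ^ (q.choose 2) * ∑ m ∈ range (q + 1), (q.choose m : ℝ) * wt M q m := by
    intro a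
    rw [Finset.sum_comm]
    have hJ : ∀ J ∈ (univ : Finset (Fin q)).powerset, (∑ b : Fin q → Fin M,
        if (3 ≤ J.card ∧ ∀ i ∈ J, a i = b i) then
          (1 / 4 : ℝ) ^ (q.choose 2) * 2 ^ (J.card.choose 2) else 0)
        = (1 / 4) ^ (q.choose 2) * wt M q J.card := by
      intro J _
      by_cases h3 : 3 ≤ J.card
      · have : ∀ b : Fin q → Fin M, (if (3 ≤ J.card ∧ ∀ i ∈ J, a i = b i) then
          (1 / 4 : ℝ) ^ (q.choose 2) * 2 ^ (J.card.choose 2) else 0)
          = if (∀ i ∈ J, a i = b i) then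
          (1 / 4 : ℝ) ^ (q.choose 2) * 2 ^ (J.card.choose 2) else 0 := by
          intro b
          by_cases hb : ∀ i ∈ J, a i = b i
          · rw [if_pos ⟨h3, hb⟩, if_pos hb]
          · rw [if_neg (fun h => hb h.2), if_neg hb]
        rw [Finset.sum_congr rfl (fun b _ => this b), ← Finset.sum_filter, Finset.sum_const,
          card_agree, nsmul_eq_mul, wt, if_pos h3]
        push_cast
        ring
      · rw [Finset.sum_eq_zero (fun b _ => if_neg (fun h => h3 h.1)), wt, if_neg h3, mul_zero]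
    rw [Finset.sum_congr rfl hJ, ← Finset.mul_sum,
      Finset.sum_powerset_apply_card (fun m => wt M q m) (x := (univ : Finset (Fin q))),
      Finset.card_univ, Fintype.card_fin]
    simp only [nsmul_eq_mul]
  rw [Finset.sum_congr rfl (fun a _ => hinner a), Finset.sum_const, Finset.card_univ,
    Fintype.card_fun, Fintype.card_fin, Fintype.card_fin, nsmul_eq_mul]
  push_cast
  rw [mul_assoc]

end board

end Pool.Agent.Lib.MP_88b929_co
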