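import Mathlib
import Pool.Agent.Lib.MP_88b929_co.Board

set_option autoImplicit false

/-!
Numerical estimates and the existence of winning strategies for large cliques.
-/

namespace Pool.Agent.Lib.MP_88b929_co

open Finset Function

lemma choose_two_le {s m : ℕ} (hm : m ≤ 4 * s) : m.choose 2 ≤ 2 * s * (m - 1) := by
  rw [Nat.choose_two_right]
  have h1 : m * (m - 1) ≤ 4 * s * (m - 1) := Nat.mul_le_mul_right _ hm
  have h2 : 4 * s * (m - 1) = 2 * (2 * s * (m - 1)) := by ring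
  omega

/-- The core estimate, in natural numbers, with `Q = 4 * s` and `M = 2 ^ (3 * s)`. -/
lemma core_nat {s m : ℕ} (hs : 4 * s ≤ 2 ^ s) (hs2 : 2 ≤ s) (hm3 : 3 ≤ m) (hm : m ≤ 4 * s) :
    (4 * s) ^ (m + 2) * 2 ^ (m.choose 2) * 2 ^ s ≤ (4 * s) ^ 8 * (2 ^ (3 * s)) ^ (m - 2) := by
  obtain rfl | rfl | hm5 : m = 3 ∨ m = 4 ∨ 5 ≤ m := by omega
  · -- m = 3
    have h1 : (2 : ℕ) ^ 3 ≤ (4 * s) ^ 3 := Nat.pow_le_pow_left (by omega) 3
    have h2 : (2 : ℕ) ^ s ≤ (2 ^ (3 * s)) ^ 1 := by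
      rw [pow_one]; exact Nat.pow_le_pow_right (by norm_num) (by omega)
    have h3 : Nat.choose 3 2 = 3 := by decide
    rw [h3]
    calc (4 * s) ^ (3 + 2) * 2 ^ 3 * 2 ^ s ≤ (4 * s) ^ (3 + 2) * (4 * s) ^ 3 * (2 ^ (3 * s)) ^ 1 :=
          Nat.mul_le_mul (Nat.mul_le_mul_left _ h1) h2
      _ = (4 * s) ^ 8 * (2 ^ (3 * s)) ^ (3 - 2) := by ring
  · have h1 : (2 : ℕ) ^ 6 ≤ 2 ^ (3 * s) := Nat.pow_le_pow_right (by norm_num) (by omega)
    have h2 : (2 : ℕ) ^ s ≤ 2 ^ (3 * s) := Nat.pow_le_pow_right (by norm_num) (by omega)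
    have h3 : Nat.choose 4 2 = 6 := by decide
    have h4 : 1 ≤ (4 * s) ^ 2 := Nat.one_le_pow _ _ (by omega)
    rw [h3]
    calc (4 * s) ^ (4 + 2) * 2 ^ 6 * 2 ^ s
        ≤ (4 * s) ^ (4 + 2) * 2 ^ (3 * s) * 2 ^ (3 * s) :=
          Nat.mul_le_mul (Nat.mul_le_mul_left _ h1) h2
      _ = 1 * ((4 * s) ^ (4 + 2) * 2 ^ (3 * s) * 2 ^ (3 * s)) := by ring
      _ ≤ (4 * s) ^ 2 * ((4 * s) ^ (4 + 2) * 2 ^ (3 * s) * 2 ^ (3 * s)) :=
          Nat.mul_le_mul_right _ h4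
      _ = (4 * s) ^ 8 * (2 ^ (3 * s)) ^ (4 - 2) := by ring
  · obtain ⟨t, rfl⟩ : ∃ t, m = 5 + t := ⟨m - 5, by omega⟩
    have h1 : (5 + t).choose 2 ≤ 2 * s * (5 + t - 1) := choose_two_le hm
    have h2 : (2 : ℕ) ^ ((5 + t).choose 2) ≤ 2 ^ (2 * s * (4 + t)) := by
      apply Nat.pow_le_pow_right (by norm_num)
      have : 5 + t - 1 = 4 + t := by omega
      rwa [this] at h1
    have h3 : (4 * s) ^ t ≤ (2 ^ s) ^ t := Nat.pow_le_pow_left hs t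
    have h4 : 1 ≤ 4 * s := by omega
    have h5 : 5 + t - 2 = 3 + t := by omega
    rw [h5]
    calc (4 * s) ^ (5 + t + 2) * 2 ^ ((5 + t).choose 2) * 2 ^ s
        = (4 * s) ^ 7 * ((4 * s) ^ t * 2 ^ ((5 + t).choose 2)) * 2 ^ s := by ring
      _ ≤ (4 * s) ^ 7 * ((2 ^ s) ^ t * 2 ^ (2 * s * (4 + t))) * 2 ^ s :=
          Nat.mul_le_mul_right _ (Nat.mul_le_mul_left _ (Nat.mul_le_mul h3 h2))
      _ = 1 * ((4 * s) ^ 7 * (2 ^ (3 * s)) ^ (3 + t)) := by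
          rw [← pow_mul, ← pow_mul, ← pow_add, mul_assoc, ← pow_add, one_mul]
          congr 2
          ring
      _ ≤ (4 * s) * ((4 * s) ^ 7 * (2 ^ (3 * s)) ^ (3 + t)) := Nat.mul_le_mul_right _ h4
      _ = (4 * s) ^ 8 * (2 ^ (3 * s)) ^ (3 + t) := by ring

lemma term_bound {s m : ℕ} (hs : 4 * s ≤ 2 ^ s) (hs2 : 2 ≤ s) (hm : m ≤ 4 * s) :
    ((4 * s).choose 2 : ℝ) * ((2 ^ (3 * s) : ℕ) : ℝ) ^ 2 *
      (((4 * s).choose m : ℝ) * wt (2 ^ (3 * s)) (4 * s) m) * 2 ^ s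
      ≤ ((4 * s : ℕ) : ℝ) ^ 8 * ((2 ^ (3 * s) : ℕ) : ℝ) ^ (4 * s) := by
  unfold wt
  by_cases h3 : 3 ≤ m
  · rw [if_pos h3]
    have h1 : ((4 * s).choose 2) * (2 ^ (3 * s)) ^ 2 *
      (((4 * s).choose m) * (2 ^ (m.choose 2) * (2 ^ (3 * s)) ^ (4 * s - m))) * 2 ^ s
      ≤ (4 * s) ^ 8 * (2 ^ (3 * s)) ^ (4 * s) := by
      have ha : (4 * s).choose 2 ≤ (4 * s) ^ 2 := Nat.choose_le_pow _ _
      have hb : (4 * s).choose m ≤ (4 * s) ^ m := Nat.choose_le_pow _ _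
      have hc := core_nat hs hs2 h3 hm
      calc ((4 * s).choose 2) * (2 ^ (3 * s)) ^ 2 *
            (((4 * s).choose m) * (2 ^ (m.choose 2) * (2 ^ (3 * s)) ^ (4 * s - m))) * 2 ^ s
          ≤ ((4 * s) ^ 2) * (2 ^ (3 * s)) ^ 2 *
            (((4 * s) ^ m) * (2 ^ (m.choose 2) * (2 ^ (3 * s)) ^ (4 * s - m))) * 2 ^ s :=
            Nat.mul_le_mul_right _ (Nat.mul_le_mul (Nat.mul_le_mul_right _ ha)
              (Nat.mul_le_mul_right _ hb))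
        _ = ((4 * s) ^ (m + 2) * 2 ^ (m.choose 2) * 2 ^ s) *
              ((2 ^ (3 * s)) ^ 2 * (2 ^ (3 * s)) ^ (4 * s - m)) := by
            rw [pow_add (4 * s) m 2]; ring
        _ ≤ ((4 * s) ^ 8 * (2 ^ (3 * s)) ^ (m - 2)) *
              ((2 ^ (3 * s)) ^ 2 * (2 ^ (3 * s)) ^ (4 * s - m)) := Nat.mul_le_mul_right _ hc
        _ = (4 * s) ^ 8 * (2 ^ (3 * s)) ^ (4 * s) := by
            rw [mul_assoc, ← pow_add, ← pow_add]
            congr 2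
            omega
    have h2 := (Nat.cast_le (α := ℝ)).2 h1
    push_cast at h2 ⊢
    exact h2
  · rw [if_neg h3]
    simp only [mul_zero, zero_mul]
    positivity

lemma sum_bound {s : ℕ} (hs : (4 * s + 1) * (4 * s) ^ 8 ≤ 2 ^ s) (hs' : 4 * s ≤ 2 ^ s)
    (hs2 : 2 ≤ s) :
    ((4 * s).choose 2 : ℝ) * ((2 ^ (3 * s) : ℕ) : ℝ) ^ 2 *
      (∑ m ∈ range (4 * s + 1), ((4 * s).choose m : ℝ) * wt (2 ^ (3 * s)) (4 * s) m)
      ≤ ((2 ^ (3 * s) : ℕ) : ℝ) ^ (4 * s) := by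
  have h1 : (((4 * s).choose 2 : ℝ) * ((2 ^ (3 * s) : ℕ) : ℝ) ^ 2 *
      (∑ m ∈ range (4 * s + 1), ((4 * s).choose m : ℝ) * wt (2 ^ (3 * s)) (4 * s) m)) * 2 ^ s
      ≤ ((2 ^ (3 * s) : ℕ) : ℝ) ^ (4 * s) * 2 ^ s := by
    rw [Finset.mul_sum, Finset.sum_mul]
    calc _ ≤ ∑ m ∈ range (4 * s + 1),
          ((4 * s : ℕ) : ℝ) ^ 8 * ((2 ^ (3 * s) : ℕ) : ℝ) ^ (4 * s) :=
          Finset.sum_le_sum (fun m hm => term_bound hs' hs2 (by
            rw [Finset.mem_range] at hm; omega))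
      _ = ((2 ^ (3 * s) : ℕ) : ℝ) ^ (4 * s) *
            (((4 * s + 1 : ℕ) : ℝ) * ((4 * s : ℕ) : ℝ) ^ 8) := by
          rw [Finset.sum_const, Finset.card_range, nsmul_eq_mul]; ring
      _ ≤ ((2 ^ (3 * s) : ℕ) : ℝ) ^ (4 * s) * 2 ^ s := by
          apply mul_le_mul_of_nonneg_left _ (by positivity)
          have := (Nat.cast_le (α := ℝ)).2 hs
          push_cast at this ⊢
          exact this
  exact le_of_mul_le_mul_right h1 (by positivity)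

/-- The coalition wins as soon as the second-moment condition holds. -/
theorem wins_general {Q M : ℕ} (hQ8 : 8 ≤ Q) (hMeven : 2 ∣ M) (hMpos : 0 < M)
    (hsum : (Q.choose 2 : ℝ) * (M : ℝ) ^ 2 *
      (∑ m ∈ range (Q + 1), (Q.choose m : ℝ) * wt M Q m) ≤ (M : ℝ) ^ Q)
    (S : Set (Set (Fin (2 * (Q * M)) × Fin (2 * (Q * M))) ×
      Set (Fin (2 * (Q * M)) × Fin (2 * (Q * M))) ×
      Set (Fin (2 * (Q * M)) × Fin (2 * (Q * M)))))
    (hS : Closed (2 * (Q * M)) Q S) :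
    ((∅ : Set (Fin (2 * (Q * M)) × Fin (2 * (Q * M)))),
      (∅ : Set (Fin (2 * (Q * M)) × Fin (2 * (Q * M)))),
      (∅ : Set (Fin (2 * (Q * M)) × Fin (2 * (Q * M))))) ∈ S := by
  have hN : Q * M ≤ 2 * (Q * M) := by omega
  obtain ⟨M', hMdef⟩ := hMeven
  -- parameters
  have hT : 1 ≤ Q.choose 2 := Nat.choose_pos (by omega)
  set T := Q.choose 2 with hTdef
  have hMr : (0 : ℝ) < (M : ℝ) := by exact_mod_cast hMpos
  have hTr : (1 : ℝ) ≤ (T : ℝ) := by exact_mod_cast hT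
  set Φ : ℝ := (M : ℝ) ^ Q * (1 / 2) ^ T with hΦ
  have hΦpos : 0 < Φ := by positivity
  set lam : ℝ := (T * (M : ℝ) ^ 2) / (2 * Φ) with hlam
  have hlampos : 0 < lam := by positivity
  refine win_of_pot (fun a : Fin Q → Fin M => cl hN a) hlampos (board hN) (dump Q M (2 * (Q * M)))
    (disj_board_dump hN) (fun e he => board_lt hN he) (fun e he => dump_lt he)
    (fun a => exists_clique hN a) S hS (T * (M * M')) ∅ ∅ ∅ (board hN)
    (dump Q M (2 * (Q * M))) (Finset.Subset.refl _) ?_ ?_ (Finset.Subset.refl _) ?_ ?_ ?_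
  · rw [card_board, ← hTdef]
    calc T * (M * M) = T * (M * (2 * M')) := by rw [← hMdef]
      _ = 2 * (T * (M * M')) := by ring
  · intro u _
    exact ⟨Set.notMem_empty _, Set.notMem_empty _, Set.notMem_empty _⟩
  · rw [card_dump]
    have h1 : 2 * T ≤ Q * (Q - 1) := by
      rw [hTdef, Nat.choose_two_right]
      exact Nat.mul_div_le _ _
    have h2 : Q * (Q - 1) + Q = Q * Q := by
      obtain ⟨r, rfl⟩ : ∃ r, Q = r + 1 := ⟨Q - 1, by omega⟩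
      rw [Nat.add_sub_cancel]; ring
    have h3 : 2 * (T * (M * M')) = T * (M * M) := by
      calc 2 * (T * (M * M')) = T * (M * (2 * M')) := by ring
        _ = T * (M * M) := by rw [← hMdef]
    have h4 : 2 * T * (M * M) ≤ Q * (Q - 1) * (M * M) := Nat.mul_le_mul_right _ h1
    have h5 : Q * M * (Q * M) = Q * (Q - 1) * (M * M) + Q * (M * M) := by
      rw [← Nat.add_mul, h2]; ring
    have h6 : 8 * 1 ≤ Q * (M * M) := Nat.mul_le_mul hQ8 (Nat.mul_pos hMpos hMpos)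
    rw [h3, h5]
    have h7 : T * (M * M) ≤ 2 * T * (M * M) := by
      apply Nat.mul_le_mul_right; omega
    omega
  · intro u _
    exact ⟨Set.notMem_empty _, Set.notMem_empty _, Set.notMem_empty _⟩
  · unfold pot
    rw [phi_init hN]
    have hpsi := psi_init (q := Q) (M := M) hN
    have h1 : lam * (∑ p ∈ pairs (fun a : Fin Q → Fin M => cl hN a),
        ∏ x ∈ cl hN p.1 ∪ cl hN p.2,
          val (board hN) (∅ : Set (Fin (2 * (Q * M)) × Fin (2 * (Q * M)))) x) ≤ Φ / 2 := by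
      refine le_trans (mul_le_mul_of_nonneg_left hpsi hlampos.le) ?_
      have h2 : ((1 : ℝ) / 4) ^ T = (1 / 2) ^ T * (1 / 2) ^ T := by
        rw [← mul_pow]; norm_num
      have h3 : lam * ((M : ℝ) ^ Q * (1 / 4) ^ T *
          ∑ m ∈ range (Q + 1), (Q.choose m : ℝ) * wt M Q m)
          = (1 / 2) * (1 / 2) ^ T * (T * (M : ℝ) ^ 2 *
          ∑ m ∈ range (Q + 1), (Q.choose m : ℝ) * wt M Q m) := by
        rw [h2, hlam, hΦ]
        field_simp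
      rw [h3, hΦ]
      have h4 : (0 : ℝ) ≤ (1 / 2) * (1 / 2) ^ T := by positivity
      calc (1 / 2) * (1 / 2) ^ T * (T * (M : ℝ) ^ 2 *
          ∑ m ∈ range (Q + 1), (Q.choose m : ℝ) * wt M Q m)
          ≤ (1 / 2) * (1 / 2) ^ T * (M : ℝ) ^ Q := mul_le_mul_of_nonneg_left hsum h4
        _ = (M : ℝ) ^ Q * (1 / 2) ^ T / 2 := by ring
    have h5 : ((T * (M * M') : ℕ) : ℝ) * (1 / (4 * lam)) = Φ / 4 := by
      have h6 : ((T * (M * M') : ℕ) : ℝ) = T * (M : ℝ) ^ 2 / 2 := by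
        have h7 : (M : ℝ) = 2 * (M' : ℝ) := by exact_mod_cast hMdef
        push_cast
        rw [h7]; ring
      rw [h6, hlam]
      field_simp
    rw [h5]
    change Φ / 4 < Φ - _
    linarith

/-- The coalition wins the game for `K_{4s}` on `2 * (4 s * 2 ^ (3 s))` vertices, `s` large. -/
theorem coalition_wins {s : ℕ} (hs : (4 * s + 1) * (4 * s) ^ 8 ≤ 2 ^ s) (hs2 : 2 ≤ s)
    (S : Set (Set (Fin (2 * (4 * s * 2 ^ (3 * s))) × Fin (2 * (4 * s * 2 ^ (3 * s)))) ×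
      Set (Fin (2 * (4 * s * 2 ^ (3 * s))) × Fin (2 * (4 * s * 2 ^ (3 * s)))) ×
      Set (Fin (2 * (4 * s * 2 ^ (3 * s))) × Fin (2 * (4 * s * 2 ^ (3 * s))))))
    (hS : Closed (2 * (4 * s * 2 ^ (3 * s))) (4 * s) S) :
    ((∅ : Set (Fin (2 * (4 * s * 2 ^ (3 * s))) × Fin (2 * (4 * s * 2 ^ (3 * s))))),
      (∅ : Set (Fin (2 * (4 * s * 2 ^ (3 * s))) × Fin (2 * (4 * s * 2 ^ (3 * s))))),
      (∅ : Set (Fin (2 * (4 * s * 2 ^ (3 * s))) × Fin (2 * (4 * s * 2 ^ (3 * s)))))) ∈ S := by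
  have hs' : 4 * s ≤ 2 ^ s := by
    refine le_trans ?_ hs
    calc 4 * s ≤ (4 * s + 1) * 1 := by omega
      _ ≤ (4 * s + 1) * (4 * s) ^ 8 :=
        Nat.mul_le_mul_left _ (Nat.one_le_pow _ _ (by omega))
  have hsum := sum_bound hs hs' hs2
  exact wins_general (by omega) (dvd_pow_self 2 (by omega)) (by positivity) hsum S hS

end Pool.Agent.Lib.MP_88b929_co
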